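import Pool.Agent.Helper46.DC.Defs

set_option autoImplicit false

/-!
# DC-9: cores of cells
-/

namespace Pool.Agent.DC

open Finset

/-- every vertex with exactly one allowed parent lies in the core of some piece -/
theorem exists_rch {U ι : Type} {adj : U → U ⊕ ι → Prop} {J : Finset ι}
    {A : Finset (U × (U ⊕ ι))} (hA : IsCell adj J A) (u : U)
    (hu : ∀ x y, (u, x) ∈ A → (u, y) ∈ A → x = y) : ∃ j, Rch A j (Sum.inl u) := by
  obtain ⟨ρ, hρ⟩ := hA.acyc
  have key : ∀ (n : ℕ) (u : U), ρ u = n → (∀ x y, (u, x) ∈ A → (u, y) ∈ A → x = y) →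
      ∃ j, Rch A j (Sum.inl u) := by
    intro n
    induction n using Nat.strong_induction_on with
    | _ n ih =>
      intro u hn hu
      obtain ⟨x, hx⟩ := hA.tot u
      rcases x with w | j
      · have h1 : ∀ x y, (w, x) ∈ A → (w, y) ∈ A → x = y := by
          intro x y h1 h2
          by_contra h3
          exact hA.leaf w x y h1 h2 h3 u hx
        obtain ⟨j, hj⟩ := ih (ρ w) (by rw [← hn]; exact hρ u w hx) w rfl h1
        exact ⟨j, Rch.step u _ hx (fun y hy => hu y _ hy hx) hj⟩
      · exact ⟨j, Rch.step u _ hx (fun y hy => hu y _ hy hx) Rch.root⟩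
  exact key _ u rfl hu

theorem rch_unique {U ι : Type} {A : Finset (U × (U ⊕ ι))} (hA : Tot A) {j j' : ι} {x : U ⊕ ι}
    (h : Rch A j x) (h' : Rch A j' x) : j = j' := by
  induction h with
  | root =>
    cases h'
    rfl
  | step u x hux huniq _ ih =>
    cases h' with
    | step u' x' hux' _ hr' =>
      have : x' = x := huniq x' hux'
      subst this
      exact ih hr'

theorem rch_mono {U ι : Type} {A B : Finset (U × (U ⊕ ι))} (hA : Tot A) (hAB : A ⊆ B)
    {j : ι} {x : U ⊕ ι} (h : Rch B j x) : Rch A j x := by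
  induction h with
  | root => exact Rch.root
  | step u x hux huniq _ ih =>
    obtain ⟨x', hx'⟩ := hA u
    have : x' = x := huniq x' (hAB hx')
    subst this
    exact Rch.step u x' hx' (fun y hy => huniq y (hAB hy)) ih

theorem rch_mem {U ι : Type} {adj : U → U ⊕ ι → Prop} {J : Finset ι}
    {A : Finset (U × (U ⊕ ι))} (hA : IsCell adj J A) {j : ι} {u : U}
    (h : Rch A j (Sum.inl u)) : j ∈ J := by
  have key : ∀ x : U ⊕ ι, Rch A j x → ∀ u, x = Sum.inl u → j ∈ J := by
    intro x hx
    induction hx with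
    | root => intro u hu; cases hu
    | step v x hvx _ hr ih =>
      intro _ _
      rcases x with w | j'
      · exact ih w rfl
      · cases hr
        exact hA.root v _ hvx
  exact key _ h u rfl

theorem alive_count {U ι P : Type} [Fintype U] [DecidableEq U] [Fintype ι] [DecidableEq ι]
    [Fintype P] [DecidableEq P] [Nonempty U] (hcard : Fintype.card P = Fintype.card ι)
    (adj : U → U ⊕ ι → Prop) (N : P → Finset (U ⊕ ι))
    (hS : ∀ D : Finset U,
      (univ.filter fun p => (N p \ D.map ⟨Sum.inl, Sum.inl_injective⟩).card ≤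
        Fintype.card ι).card ≤ D.card)
    (A : Finset (U × (U ⊕ ι))) (hA : IsCell adj univ A) :
    ∃ B : Finset P, (∀ p ∈ B, ∃ j, Acc N A p j) ∧
      Fintype.card ι + 1 ≤ fdeg A + B.card := by
  classical
  set D : Finset U := univ.filter fun u => ∃ x y, x ≠ y ∧ (u, x) ∈ A ∧ (u, y) ∈ A with hD
  refine ⟨univ.filter fun p => ¬ (N p \ D.map ⟨Sum.inl, Sum.inl_injective⟩).card ≤
        Fintype.card ι, ?_, ?_⟩
  · intro p hp
    have hp' := (Finset.mem_filter.1 hp).2
    rw [not_le] at hp'
    have hex : ∀ x : ↥(N p \ D.map ⟨Sum.inl, Sum.inl_injective⟩), ∃ j, Rch A j x.1 := by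
      rintro ⟨x, hx⟩
      obtain ⟨hx1, hx2⟩ := Finset.mem_sdiff.1 hx
      rcases x with u | j
      · have hu : u ∉ D := fun h => hx2 (Finset.mem_map.2 ⟨u, h, rfl⟩)
        apply exists_rch hA u
        intro x y h1 h2
        by_contra h3
        exact hu (Finset.mem_filter.2 ⟨Finset.mem_univ _, x, y, h3, h1, h2⟩)
      · exact ⟨j, Rch.root⟩
    choose f hf using hex
    obtain ⟨a, b, hab, hfab⟩ := Fintype.exists_ne_map_eq_of_card_lt f (by
      rw [Fintype.card_coe]
      exact hp')
    refine ⟨f a, a.1, b.1, fun h => hab (Subtype.ext h), (Finset.mem_sdiff.1 a.2).1,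
      (Finset.mem_sdiff.1 b.2).1, hf a, ?_⟩
    rw [hfab]
    exact hf b
  · have h1 := hS D
    have h2 := Finset.card_filter_add_card_filter_not
      (s := (univ : Finset P)) (fun p => (N p \ D.map ⟨Sum.inl, Sum.inl_injective⟩).card ≤
        Fintype.card ι)
    rw [Finset.card_univ, hcard] at h2
    have h3 : Fintype.card U + D.card ≤ A.card := by
      have h4 : A.card = ∑ u : U, (A.filter fun e => e.1 = u).card :=
        Finset.card_eq_sum_card_fiberwise fun x _ => Finset.mem_univ x.1
      have h5 : ∀ u : U, 1 + (if u ∈ D then 1 else 0) ≤ (A.filter fun e => e.1 = u).card := by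
        intro u
        by_cases hu : u ∈ D
        · rw [if_pos hu]
          obtain ⟨x, y, hxy, h6, h7⟩ := (Finset.mem_filter.1 hu).2
          have h8 : 1 < (A.filter fun e => e.1 = u).card := by
            rw [Finset.one_lt_card]
            refine ⟨(u, x), Finset.mem_filter.2 ⟨h6, rfl⟩, (u, y), Finset.mem_filter.2 ⟨h7, rfl⟩,
              fun h => hxy (Prod.ext_iff.1 h).2⟩
          omega
        · rw [if_neg hu]
          obtain ⟨x, hx⟩ := hA.tot u
          exact Finset.card_pos.2 ⟨(u, x), Finset.mem_filter.2 ⟨hx, rfl⟩⟩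
      rw [h4]
      refine le_trans (le_of_eq ?_) (Finset.sum_le_sum fun u _ => h5 u)
      rw [Finset.sum_add_distrib, Finset.sum_const, Finset.card_univ, smul_eq_mul, mul_one,
        Finset.sum_ite_mem, Finset.univ_inter, Finset.sum_const, smul_eq_mul, mul_one]
    have h9 : 0 < Fintype.card U := Fintype.card_pos
    have h10 : fdeg A = A.card + 1 - Fintype.card U := by
      unfold fdeg
      rw [if_neg (by omega)]
    rw [h10]
    omega

end Pool.Agent.DC
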